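import Mathlib
import Pool.Agent.Helper65.Inj.JDefs

/-! J part of the injective colouring: two attached points of the same pair. -/

namespace Pool.Agent.Helper88.Inj

open Classical Pool.Agent.Helper65.Inj Pool.Agent.Helper65.Inj.Cub

set_option linter.unusedSectionVars false
set_option linter.unusedVariables false

theorem st_U1 : ST_U1 := by
  intro A B _ _ H J u v j k T b c T' b' c' hO hx hx' huv hHv hLP
  have hnt1 := hx.nt1 hO
  have hnt2 := hx.nt2 hO
  have hjk := hx.ne hO
  have huJ := hx.nJ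
  have hvJ := hx'.nJ
  obtain ⟨Dj, Fj, pj, lj⟩ := hx.lf hO
  obtain ⟨Dk, Fk, pk, lk⟩ := hx.symm.lf hO
  have huall : ∀ r, u ∈ H.pt r → r = T ∨ r = b ∨ r = c := fun r hr => hx.all hr
  have hvall : ∀ r, v ∈ H.pt r → r = T' ∨ r = b' ∨ r = c' := fun r hr => hx'.all hr
  have hjall : ∀ r, j ∈ H.pt r → r = b ∨ r = Dj ∨ r = Fj := fun r hr => lj.all hr
  have hkall : ∀ r, k ∈ H.pt r → r = c ∨ r = Dk ∨ r = Fk := fun r hr => lk.all hr
  have hTb := hx.Tb
  have hTc := hx.Tc
  have hTb' := hx'.Tb
  have hTc' := hx'.Tc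
  have hcom := hHv.2 v hvJ (Ne.symm huv)
  obtain ⟨⟨s, hs⟩, hI⟩ := hO.1
  obtain ⟨huT, hub, huc, hbc, hUT, hPj, hPk⟩ := hx
  obtain ⟨hvT, hvb, hvc, hbc', hUT', hPj', hPk'⟩ := hx'
  have g1 := lj.bD
  have g2 := lj.FD
  have g3 := lk.bD
  have g4 := lk.FD
  obtain ⟨a1, a2, a3, a4⟩ := lj
  obtain ⟨b1, b2, b3, b4⟩ := lk
  have hpj : pj ≠ k := by
    rintro rfl
    exact hLP Dj ⟨a3.2.1, a3.2.2.1⟩
  have hpk : pk ≠ j := by
    rintro rfl
    exact hLP Dk ⟨b3.2.2.1, b3.2.1⟩
  have hb' : b' = b ∨ b' = Fj := by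
    rcases hjall b' hPj'.1 with h | h | h
    · exact Or.inl h
    · exfalso
      rw [h] at hPj'
      exact a3.1 (hPj'.2.2 pj a3.2.2.1 a3.2.2.2.2.1).symm
    · exact Or.inr h
  have hc' : c' = c ∨ c' = Fk := by
    rcases hkall c' hPk'.1 with h | h | h
    · exact Or.inl h
    · exfalso
      rw [h] at hPk'
      exact b3.1 (hPk'.2.2 pk b3.2.2.1 b3.2.2.2.2.1).symm
    · exact Or.inr h
  have c1 : ({u, v} : Finset A).card = 2 := Finset.card_pair huv
  have c2 : ({j, k} : Finset A).card = 2 := Finset.card_pair hjk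
  have hjJ := hPj.2.1
  have hkJ := hPk.2.1
  rcases hb' with rfl | rfl
  · have hT : T ≠ T' := by
      rintro rfl
      exact hTb (hcom T b' huT hub hvT hvb)
    have hc : c' = Fk := by
      rcases hc' with rfl | h
      · exact absurd (hcom b' c' hub huc hvb hvc) hbc
      · exact h
    subst hc
    have c3 : ({T, T'} : Finset B).card = 2 := Finset.card_pair hT
    have hbpt : ∀ r, r ∈ H.pt b' → r = u ∨ r = v ∨ r = j := fun r hr =>
      pt_cases hub hvb hPj.1 huv (fun h => huJ (h ▸ hjJ)) (fun h => hvJ (h ▸ hjJ)) hr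
    have hEx : Ex H J {u, v} {j, k} {Fj} {T, T'} (fun a => if a = u then true else if a = v then false else s a) := by
      refine ⟨by grind, by grind, ?_, ?_, ?_, ?_⟩
      · unfold U P Q at *; grind
      · exact hc_s hs (by grind) (by grind) (by grind)
      · unfold U P Q at *; grind
      · unfold U at *; grind
    exact hEx.contra hO (by simp [c1, c2, c3])
  · rcases hc' with rfl | rfl
    · have hT : T ≠ T' := by
        rintro rfl
        exact hTc (hcom T c' huT huc hvT hvc)
      have c3 : ({T, T'} : Finset B).card = 2 := Finset.card_pair hT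
      have hcpt : ∀ r, r ∈ H.pt c' → r = u ∨ r = v ∨ r = k := fun r hr =>
        pt_cases huc hvc hPk.1 huv (fun h => huJ (h ▸ hkJ)) (fun h => hvJ (h ▸ hkJ)) hr
      have hEx : Ex H J {u, v} {j, k} {Fk} {T, T'} (fun a => if a = u then true else if a = v then false else s a) := by
        refine ⟨by grind, by grind, ?_, ?_, ?_, ?_⟩
        · unfold U P Q at *; grind
        · exact hc_s hs (by grind) (by grind) (by grind)
        · unfold U P Q at *; grind
        · unfold U at *; grind
      exact hEx.contra hO (by simp [c1, c2, c3])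
    · by_cases hT : T = T'
      · subst hT
        have hEx : Ex H J {u, v} {j, k} ∅ {T} (fun a => if a = u then true else if a = v then false else s a) := by
          refine ⟨by grind, by grind, ?_, ?_, ?_, ?_⟩
          · unfold U P Q at *; grind
          · exact hc_s hs (by grind) (by grind) (by grind)
          · unfold U P Q at *; grind
          · unfold U at *; grind
        exact hEx.contra hO (by simp [c1, c2])
      · have c3 : ({T, T'} : Finset B).card = 2 := Finset.card_pair hT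
        have hEx : Ex H J {u, v} {j, k} ∅ {T, T'} s := by
          refine ⟨by grind, by grind, ?_, ?_, ?_, ?_⟩
          · unfold U P Q at *; grind
          · exact hc_s hs (by grind) (by grind) (by grind)
          · unfold U P Q at *; grind
          · unfold U at *; grind
        exact hEx.contra hO (by simp [c1, c2, c3])

theorem st_U1s : ST_U1s := by
  intro A B _ _ H J u v j k T b c T' b' c' hO hx hx' hno
  have hnt1 := hx.nt1 hO
  have hnt2 := hx.nt2 hO
  have hjk := hx.ne hO
  have huJ := hx.nJ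
  have hvJ := hx'.nJ
  obtain ⟨Dj, Fj, pj, lj⟩ := hx.lf hO
  obtain ⟨Dk, Fk, pk, lk⟩ := hx.symm.lf hO
  have huall : ∀ r, u ∈ H.pt r → r = T ∨ r = b ∨ r = c := fun r hr => hx.all hr
  have hvall : ∀ r, v ∈ H.pt r → r = T' ∨ r = b' ∨ r = c' := fun r hr => hx'.all hr
  have hjall : ∀ r, j ∈ H.pt r → r = b ∨ r = Dj ∨ r = Fj := fun r hr => lj.all hr
  have hkall : ∀ r, k ∈ H.pt r → r = c ∨ r = Dk ∨ r = Fk := fun r hr => lk.all hr
  obtain ⟨⟨s, hs⟩, hI⟩ := hO.1
  obtain ⟨huT, hub, huc, hbc, hUT, hPj, hPk⟩ := hx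
  obtain ⟨hvT, hvb, hvc, hbc', hUT', hPj', hPk'⟩ := hx'
  have g1 := lj.bD
  have g2 := lj.FD
  have g3 := lk.bD
  have g4 := lk.FD
  obtain ⟨a1, a2, a3, a4⟩ := lj
  obtain ⟨b1, b2, b3, b4⟩ := lk
  have huv : u ≠ v := by
    rintro rfl
    exact hno T ⟨huT, huT⟩
  have hT : T ≠ T' := by
    rintro rfl
    exact hno T ⟨huT, hvT⟩
  have hb' : b' = Fj := by
    rcases hjall b' hPj'.1 with h | h | h
    · exfalso
      rw [h] at hvb
      exact hno b ⟨hub, hvb⟩
    · exfalso
      rw [h] at hPj'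
      exact a3.1 (hPj'.2.2 pj a3.2.2.1 a3.2.2.2.2.1).symm
    · exact h
  have hc' : c' = Fk := by
    rcases hkall c' hPk'.1 with h | h | h
    · exfalso
      rw [h] at hvc
      exact hno c ⟨huc, hvc⟩
    · exfalso
      rw [h] at hPk'
      exact b3.1 (hPk'.2.2 pk b3.2.2.1 b3.2.2.2.2.1).symm
    · exact h
  subst hb' hc'
  have c1 : ({u, v} : Finset A).card = 2 := Finset.card_pair huv
  have c2 : ({j, k} : Finset A).card = 2 := Finset.card_pair hjk
  have c3 : ({T, T'} : Finset B).card = 2 := Finset.card_pair hT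
  have hjJ := hPj.2.1
  have hkJ := hPk.2.1
  have hEx : Ex H J {u, v} {j, k} {Dj} {T, T'} s := by
    refine ⟨by grind, by grind, ?_, ?_, ?_, ?_⟩
    · unfold U P Q at *; grind
    · exact hc_s hs (by grind) (by grind) (by grind)
    · unfold U P Q at *; grind
    · unfold U at *; grind
  exact hEx.contra hO (by simp [c1, c2, c3])

end Pool.Agent.Helper88.Inj
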